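import Pool.Agent.Run7.h670.MY.Sob

/-!
# The smooth half of the piece N_PHASE (helper670's March-Young project)
-/

set_option autoImplicit false

open MeasureTheory Set
open scoped ENNReal RealInnerProductSpace ContDiff

namespace Run7.h862.MY

open Pool.Agent.Run7.h670.MY

/-- The smooth half of N_PHASE. -/
def PH1 : Prop := ∀ (d : ℕ) (ρ : V d → ℝ) (G : Fin d → V d → ℂ) (e : V d) (g : ℝ → ℝ) (k : ℝ),
  (∀ x, 0 ≤ ρ x) → Integrable ρ → IsSobolev (fun x => ((√(ρ x) : ℝ) : ℂ)) G → ‖e‖ = 1 →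
  ContDiff ℝ ∞ g → HasCompactSupport g →
  IsSobolev (fun x => ((√(ρ x) : ℝ) : ℂ) *
      Complex.exp (Complex.I * ((k * ∫ s in (0 : ℝ)..⟪e, x⟫, g s : ℝ) : ℂ)))
    (fun i x => (G i x + Complex.I * ((k * g ⟪e, x⟫ * e i * √(ρ x) : ℝ) : ℂ)) *
      Complex.exp (Complex.I * ((k * ∫ s in (0 : ℝ)..⟪e, x⟫, g s : ℝ) : ℂ)))

theorem t_PH1 : PH1 := by
  intro d ρ G e g k _ _ hS he hg hc
  set r : V d → ℂ := fun x => ((√(ρ x) : ℝ) : ℂ) with hr
  have hgc : Continuous g := hg.continuous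
  set Γ : ℝ → ℝ := fun t => ∫ s in (0 : ℝ)..t, g s with hΓ
  have hΓd : ∀ t, HasDerivAt Γ (g t) t := fun t => (hgc.integral_hasStrictDerivAt 0 t).hasDerivAt
  have hΓc : ContDiff ℝ ∞ Γ := by
    rw [contDiff_infty_iff_deriv]
    refine ⟨fun t => (hΓd t).differentiableAt, ?_⟩
    have : deriv Γ = g := funext fun t => (hΓd t).deriv
    rw [this]; exact hg
  set θ : V d → ℝ := fun x => k * Γ ⟪e, x⟫ with hθ
  have hθc : ContDiff ℝ ∞ θ := by
    refine contDiff_const.mul (hΓc.comp ?_)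
    exact (innerSL ℝ e).contDiff
  have hθd : ∀ x, HasFDerivAt θ ((k * g ⟪e, x⟫) • (innerSL ℝ e : V d →L[ℝ] ℝ)) x := by
    intro x
    have h1 : HasFDerivAt (fun x : V d => (⟪e, x⟫ : ℝ)) (innerSL ℝ e : V d →L[ℝ] ℝ) x :=
      (innerSL ℝ e).hasFDerivAt
    have h2 := (((hΓd ⟪e, x⟫).comp_hasFDerivAt x h1)).const_mul k
    rwa [smul_smul] at h2
  have hin : ∀ i, (innerSL ℝ e : V d →L[ℝ] ℝ) (EuclideanSpace.single i 1) = e i := by
    intro i
    rw [innerSL_apply_apply, EuclideanSpace.inner_single_right]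
    simp
  have hpc : ∀ i x, pd i (fun x => Real.cos (θ x)) x = - Real.sin (θ x) * (k * g ⟪e, x⟫ * e i) := by
    intro i x
    unfold pd
    have h1 : HasFDerivAt (fun x => Real.cos (θ x)) _ x :=
      (Real.hasDerivAt_cos (θ x)).comp_hasFDerivAt x (hθd x)
    rw [h1.fderiv]
    simp only [ContinuousLinearMap.smul_apply, hin, smul_eq_mul]
  have hps : ∀ i x, pd i (fun x => Real.sin (θ x)) x = Real.cos (θ x) * (k * g ⟪e, x⟫ * e i) := by
    intro i x
    unfold pd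
    have h1 : HasFDerivAt (fun x => Real.sin (θ x)) _ x :=
      (Real.hasDerivAt_sin (θ x)).comp_hasFDerivAt x (hθd x)
    rw [h1.fderiv]
    simp only [ContinuousLinearMap.smul_apply, hin, smul_eq_mul]
  obtain ⟨C, hC⟩ : ∃ C, ∀ t, ‖g t‖ ≤ C := hc.exists_bound_of_continuous hgc
  have hC0 : 0 ≤ C := (norm_nonneg _).trans (hC 0)
  have hei : ∀ i, |e i| ≤ 1 := fun i => by
    rw [← he, ← Real.norm_eq_abs]
    exact PiLp.norm_apply_le e i
  have hbd : ∀ i x, |k * g ⟪e, x⟫ * e i| ≤ |k| * C := by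
    intro i x
    rw [abs_mul, abs_mul]
    calc |k| * |g ⟪e, x⟫| * |e i| ≤ |k| * C * 1 := by
          refine mul_le_mul (mul_le_mul_of_nonneg_left (hC _) (abs_nonneg _)) (hei i) (abs_nonneg _) (by positivity)
      _ = |k| * C := mul_one _
  have hK1 : (1 : ℝ) ≤ 1 + |k| * C := by
    have : 0 ≤ |k| * C := by positivity
    linarith
  have h1 := hS.mul_smooth (b := fun x => Real.cos (θ x)) (Real.contDiff_cos.comp hθc)
    (K := 1 + |k| * C) (fun x => (Real.abs_cos_le_one _).trans hK1) (fun i x => by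
      rw [hpc, abs_mul, abs_neg]
      calc |Real.sin (θ x)| * |k * g ⟪e, x⟫ * e i| ≤ 1 * (|k| * C) :=
            mul_le_mul (Real.abs_sin_le_one _) (hbd i x) (abs_nonneg _) zero_le_one
        _ ≤ 1 + |k| * C := by linarith)
  have h2 := hS.mul_smooth (b := fun x => Real.sin (θ x)) (Real.contDiff_sin.comp hθc)
    (K := 1 + |k| * C) (fun x => (Real.abs_sin_le_one _).trans hK1) (fun i x => by
      rw [hps, abs_mul]
      calc |Real.cos (θ x)| * |k * g ⟪e, x⟫ * e i| ≤ 1 * (|k| * C) :=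
            mul_le_mul (Real.abs_cos_le_one _) (hbd i x) (abs_nonneg _) zero_le_one
        _ ≤ 1 + |k| * C := by linarith)
  have h3 := h1.add (h2.const_mul Complex.I)
  have e1 : ∀ t : ℝ, Complex.exp (Complex.I * (t : ℂ)) = (Real.cos t : ℂ) + Complex.I * (Real.sin t : ℂ) := by
    intro t
    rw [mul_comm, Complex.exp_mul_I, ← Complex.ofReal_cos, ← Complex.ofReal_sin]; ring
  convert h3 using 1
  · funext x
    change r x * Complex.exp (Complex.I * ((θ x : ℝ) : ℂ)) = _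
    rw [e1]
    ring
  · funext i x
    change (G i x + Complex.I * ((k * g ⟪e, x⟫ * e i * √(ρ x) : ℝ) : ℂ)) *
      Complex.exp (Complex.I * ((θ x : ℝ) : ℂ)) = _
    rw [e1, hpc, hps]
    simp only [hr]
    push_cast
    ring_nf
    simp only [Complex.I_sq]
    ring

end Run7.h862.MY
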